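import Pool.Agent.H620R2.GaugeX.X9
import Mathlib.Analysis.SpecialFunctions.Pow.Asymptotics

/-!
# A function of third-exponential growth

(helper990)
-/

namespace Pool.Agent.W990.Gap

open Pool.Agent.NPC Pool.Agent.H620R2.Gauge

/-- a sequence that grows exponentially in three steps -/
def tq : ℕ → ℕ
  | 0 => 8
  | 1 => 32
  | 2 => 128
  | k + 3 => 2 ^ (tq k + 1)

theorem tq_succ (k : ℕ) : tq (k + 3) = 2 ^ (tq k + 1) := rfl

theorem tq_pos : ∀ k, 1 ≤ tq k
  | 0 => by decide
  | 1 => by decide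
  | 2 => by decide
  | k + 3 => by rw [tq_succ]; exact Nat.one_le_two_pow

theorem tq_four : ∀ k, 4 * tq k ≤ tq (k + 1)
  | 0 => by decide
  | 1 => by decide
  | 2 => by decide
  | k + 3 => by
    have h := tq_four k
    have h1 := tq_pos k
    rw [tq_succ, show k + 3 + 1 = (k + 1) + 3 by ring, tq_succ]
    calc 4 * 2 ^ (tq k + 1) = 2 ^ (tq k + 1 + 2) := by ring
      _ ≤ 2 ^ (tq (k + 1) + 1) := Nat.pow_le_pow_right (by norm_num) (by omega)

theorem tq_lt (k : ℕ) : tq k < tq (k + 1) := by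
  have h := tq_four k
  have h1 := tq_pos k
  omega

theorem tq_strictMono : StrictMono tq := strictMono_nat_of_lt_succ tq_lt

theorem le_tq (k : ℕ) : k ≤ tq k := tq_strictMono.le_apply

theorem tq_sq (k : ℕ) : tq (k + 3) ^ 2 ≤ tq (k + 4) := by
  have h := tq_four k
  have h1 := tq_pos k
  rw [tq_succ, show k + 4 = (k + 1) + 3 by ring, tq_succ, ← pow_mul]
  exact Nat.pow_le_pow_right (by norm_num) (by omega)

theorem tq_pow (c : ℕ) (k : ℕ) (hk : 2 * c + 6 ≤ k) : tq k ^ c ≤ tq (k + 1) := by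
  obtain ⟨j, rfl⟩ : ∃ j, k = j + 6 := ⟨k - 6, by omega⟩
  rw [show j + 6 = (j + 3) + 3 by ring, tq_succ, show j + 3 + 3 + 1 = (j + 4) + 3 by ring, tq_succ,
    ← pow_mul]
  refine Nat.pow_le_pow_right (by norm_num) ?_
  have h1 := tq_sq j
  have h2 := le_tq (j + 3)
  have h3 : 2 * c ≤ tq (j + 3) := by omega
  have h4 : 2 * c * tq (j + 3) ≤ tq (j + 3) ^ 2 := by
    rw [pow_two]
    exact Nat.mul_le_mul_right _ h3
  have h5 : c ≤ c * tq (j + 3) := Nat.le_mul_of_pos_right _ (tq_pos _)
  calc (tq (j + 3) + 1) * c = c * tq (j + 3) + c := by ring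
    _ ≤ 2 * c * tq (j + 3) := by nlinarith
    _ ≤ tq (j + 4) + 1 := by omega

theorem exists_tq (n : ℕ) : ∃ k, n ≤ tq k := ⟨n, le_tq n⟩

open Classical in
/-- the index of a number -/
noncomputable def ix (n : ℕ) : ℕ := Nat.find (exists_tq n)

theorem le_ix (n : ℕ) : n ≤ tq (ix n) := by
  classical
  exact Nat.find_spec (exists_tq n)

theorem ix_le {n k : ℕ} (h : n ≤ tq k) : ix n ≤ k := by
  classical
  exact Nat.find_min' _ h

theorem lt_ix {n k : ℕ} (h : k < ix n) : tq k < n := by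
  by_contra hc
  have := ix_le (not_lt.1 hc)
  omega

/-- the function: every step of the sequence -/
noncomputable def tG (n : ℕ) : ℕ := tq (ix n + 1)

theorem ix_mono : Monotone ix := fun _ _ h => ix_le (h.trans (le_ix _))

theorem tG_mono : Monotone tG := fun _ _ h =>
  tq_strictMono.monotone (Nat.succ_le_succ (ix_mono h))

theorem le_tG (n : ℕ) : n ≤ tG n := (le_ix n).trans (tq_lt _).le

theorem ix_tq (k : ℕ) : ix (tq k) = k := by
  refine le_antisymm (ix_le le_rfl) ?_
  exact tq_strictMono.le_iff_le.1 (le_ix (tq k))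

theorem tG_three (n : ℕ) : 2 ^ n ≤ tG (tG (tG n)) := by
  unfold tG
  rw [ix_tq, ix_tq]
  show _ ≤ tq (ix n + 3)
  rw [tq_succ]
  have := le_ix n
  exact Nat.pow_le_pow_right (by norm_num) (by omega)

theorem tG_growth (c n : ℕ) (hn : tq (2 * c + 8) < n) : ∃ s, s ^ c ≤ n ∧ tG n ≤ 2 ^ (s + 1) := by
  have h1 : 2 * c + 8 < ix n := by
    by_contra hc
    have h2 := le_ix n
    have h3 := tq_strictMono.monotone (not_lt.1 hc)
    omega
  obtain ⟨j, hj⟩ : ∃ j, ix n = j + 2 := ⟨ix n - 2, by omega⟩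
  refine ⟨tq j, ?_, ?_⟩
  · have h2 := tq_pow c j (by omega)
    have h3 := lt_ix (n := n) (k := j + 1) (by omega)
    omega
  · unfold tG
    rw [hj]
    exact le_of_eq (tq_succ j)

open X9 in
/-- the function is subexponential, up to polynomials -/
theorem tG_subexp (a b : Polynomial ℕ) {ε : ℝ} (hε : 0 < ε) : ∃ C : ℕ, ∀ n : ℕ,
    a.eval (tG (b.eval n)) ≤ C + ⌊(2 : ℝ) ^ ((n : ℝ) ^ ε)⌋₊ := by
  obtain ⟨c, hc⟩ : ∃ c : ℕ, ((b.natDegree : ℝ) + 1) / (ε / 2) ≤ c := exists_nat_ge _
  have hcpos : 0 < c := by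
    rcases Nat.eq_zero_or_pos c with h | h
    · subst h
      have : 0 < ((b.natDegree : ℝ) + 1) / (ε / 2) := by positivity
      simp only [Nat.cast_zero] at hc
      linarith
    · exact h
  have hlim : Filter.Tendsto (fun n : ℕ => (n : ℝ) ^ (ε / 2)) Filter.atTop Filter.atTop :=
    (tendsto_rpow_atTop (by positivity)).comp tendsto_natCast_atTop_atTop
  have hev := hlim.eventually_ge_atTop ((a.eval 1 : ℕ) + 2 * (a.natDegree : ℝ) + 1)
  obtain ⟨N, hN⟩ := Filter.eventually_atTop.1 hev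
  set N' := max N (max (b.eval 1 + 1) (tq (2 * c + 8) + 1)) with hN'
  have hmono : Monotone fun n : ℕ => a.eval (tG (b.eval n)) := fun n m h =>
    eval_mono a (tG_mono (eval_mono b h))
  refine ⟨a.eval (tG (b.eval N')) + a.eval (tG (tq (2 * c + 8))), fun n => ?_⟩
  rcases le_total n N' with h | h
  · have := hmono h
    simp only at this
    omega
  · by_cases hb : b.eval n ≤ tq (2 * c + 8)
    · have := eval_mono a (tG_mono hb)
      omega
    · obtain ⟨s, hs1, hs2⟩ := tG_growth c (b.eval n) (not_le.1 hb)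
      have h1 : b.eval 1 + 1 ≤ n := (le_max_left _ _).trans ((le_max_right _ _).trans h)
      have h2 : N ≤ n := (le_max_left _ _).trans h
      have hn1 : 1 ≤ n := by omega
      have h3 : b.eval n ≤ n ^ (b.natDegree + 1) := by
        refine (eval_le b n hn1).trans ?_
        rw [pow_succ, mul_comm (n ^ _) n]
        exact Nat.mul_le_mul_right _ (by omega)
      have h4 : a.eval (tG (b.eval n)) ≤ 2 ^ (a.eval 1 + (s + 1) * a.natDegree) := by
        refine (eval_mono a hs2).trans ((eval_le a _ Nat.one_le_two_pow).trans ?_)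
        rw [pow_add 2 (a.eval 1) ((s + 1) * a.natDegree), pow_mul 2 (s + 1) a.natDegree]
        exact Nat.mul_le_mul_right _ Nat.lt_two_pow_self.le
      have hn0 : (0 : ℝ) < n := by exact_mod_cast hn1
      have hn1' : (1 : ℝ) ≤ n := by exact_mod_cast hn1
      set u := (n : ℝ) ^ (ε / 2) with hu
      have h5 : (s : ℝ) ≤ u := by
        have h6 : ((s : ℝ)) ^ c ≤ (n : ℝ) ^ (b.natDegree + 1) := by
          exact_mod_cast hs1.trans h3
        have h7 : (n : ℝ) ^ (b.natDegree + 1) ≤ u ^ c := by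
          rw [hu, ← Real.rpow_natCast, ← Real.rpow_natCast, ← Real.rpow_mul hn0.le]
          refine Real.rpow_le_rpow_of_exponent_le hn1' ?_
          rw [div_le_iff₀ (by positivity)] at hc
          push_cast
          linarith
        exact le_of_pow_le_pow_left₀ hcpos.ne' (by positivity) (h6.trans h7)
      have h8 := hN n h2
      have h9 : u * u = (n : ℝ) ^ ε := by
        rw [hu, ← Real.rpow_add hn0]
        congr 1
        ring
      have h10 : ((a.eval 1 + (s + 1) * a.natDegree : ℕ) : ℝ) ≤ (n : ℝ) ^ ε := by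
        rw [← h9]
        push_cast
        have hd : (0 : ℝ) ≤ (a.natDegree : ℝ) := by positivity
        have ha : (0 : ℝ) ≤ ((a.eval 1 : ℕ) : ℝ) := by positivity
        have hu1 : 1 ≤ u := by linarith
        have h11 : ((s : ℝ) + 1) * a.natDegree ≤ (u + 1) * a.natDegree :=
          mul_le_mul_of_nonneg_right (by linarith) hd
        have h12 : ((a.eval 1 : ℕ) + 2 * (a.natDegree : ℝ) + 1) * u ≤ u * u :=
          mul_le_mul_of_nonneg_right h8 (by linarith)
        nlinarith
      have h13 : a.eval (tG (b.eval n)) ≤ ⌊(2 : ℝ) ^ ((n : ℝ) ^ ε)⌋₊ := by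
        refine h4.trans (Nat.le_floor ?_)
        push_cast
        rw [← Real.rpow_natCast]
        exact Real.rpow_le_rpow_of_exponent_le (by norm_num) h10
      omega

end Pool.Agent.W990.Gap
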