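import Pool.Agent.W990.Gap.Inst
import Pool.Agent.H620R2.Gauge.P
import Pool.Agent.H671R2.PolyAuto

/-!
# The algorithms that read the codes

(helper990)
-/

namespace Pool.Agent.W990.Gap

open Pool.Agent.NPC Pool.Agent.H620R2.Gauge Pool.Agent.H622R2

section poly

variable {α : Type} [TEnc α]

theorem poly_tag {z : α → List Bool} (hz : Poly z) (a b : Bool) (e : ℕ) :
    Poly (fun u => tag a b e (z u)) :=
  NPC.Poly.append (NPC.Poly.const _) (NPC.Poly.cons (NPC.Poly.const false)
    (NPC.Poly.cons (NPC.Poly.const a) (NPC.Poly.cons (NPC.Poly.const b) hz)))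

theorem poly_rep {n : α → ℕ} (hn : UPoly n) (b : Bool) : Poly (fun u => List.replicate (n u) b) :=
  (NPC.Poly.map (F := fun _ _ => b) hn (NPC.Poly.const b)).congr fun u => by simp

theorem poly_cT {n t : α → ℕ} (hn : UPoly n) (ht : UPoly t) (i : ℕ) :
    Poly (fun u => Dat.cT i (n u) (t u)) :=
  poly_tag (poly_pairBits (poly_rep hn true) (poly_rep ht true)) _ _ _

end poly

/-! ### Nondeterministic questions -/

/-- the next action -/
def nD (e : ℕ) (ν : Polynomial ℕ) (y : List Bool) : List Bool :=
  if (unpair y).2.reverse.tail.head? = some true then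
    [true, (unpair y).2.reverse.head?.getD false]
  else if (unpair y).2.reverse.head? = some true then
    false :: tag false false e (pairBits (unpair y).1
      (List.replicate (unpair y).2.reverse.tail.length true))
  else false :: Dat.cT 0 (ν.eval (unpair y).1.length) (unpair y).2.length

theorem poly_nD (e : ℕ) (ν : Polynomial ℕ) : Poly (nD e ν) := by
  have h1 : Poly (fun y : List Bool => (unpair y).1) := Poly.fst poly_unpair
  have h2 : Poly (fun y : List Bool => (unpair y).2) := Poly.snd poly_unpair
  have h3 : Poly (fun y : List Bool => (unpair y).2.reverse) := Poly.reverse h2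
  have h4 : Poly (fun y : List Bool => (unpair y).2.reverse.head?.getD false) :=
    (PTask.poly_headD h3).congr fun y => rfl
  refine Poly.ite (Poly.decide_eq (Poly.head? (Poly.tail h3)) (NPC.Poly.const (some true)))
    (Poly.cons (NPC.Poly.const true) (Poly.cons h4 (NPC.Poly.const [])))
    (Poly.ite (Poly.decide_eq (Poly.head? h3) (NPC.Poly.const (some true))) ?_ ?_)
  · exact Poly.cons (NPC.Poly.const false) (poly_tag (poly_pairBits h1
      (poly_rep (UPoly.length (Poly.tail h3)) true)) _ _ _)
  · exact Poly.cons (NPC.Poly.const false) (poly_cT (UPoly.eval (UPoly.length h1) ν)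
      (UPoly.length h2) 0)

/-- the algorithm -/
noncomputable def nAlg (e : ℕ) (ν : Polynomial ℕ) : Alg := ⟨nD e ν, polyTime_of_poly_list (poly_nD e ν), 0⟩

theorem run_ask (M : Alg) (A : Oracle) (x : List Bool) (n : ℕ) (a q : List Bool)
    (h : M.D (pairBits x a) = false :: q) : M.run A x (n + 1) a = M.run A x n (a ++ [A q]) := by
  simp only [Alg.run, h]

theorem isDTime_of_code {G : ℕ → ℕ} {A : Oracle} {L : Set (List Bool)} {e : ℕ} {ν : Polynomial ℕ}
    (hT : ∀ n t, A (Dat.cT 0 n t) = true ↔ G n ≤ t)
    (hL : ∀ x : List Bool, A (tag false false e (pairBits x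
      (List.replicate (G (ν.eval x.length)) true))) = true ↔ x ∈ L) :
    IsDTime (fun k => G (ν.eval k) + 3) A L := by
  refine ⟨nAlg e ν, fun x => ⟨[A (tag false false e (pairBits x
      (List.replicate (G (ν.eval x.length)) true)))], ?_, ?_⟩⟩
  · have hD : ∀ a, (nAlg e ν).D (pairBits x a) = nD e ν (pairBits x a) := fun _ => rfl
    have key : ∀ k t, k + t = G (ν.eval x.length) →
        (nAlg e ν).run A x (k + 3) (List.replicate t false) =
          some [A (tag false false e (pairBits x (List.replicate (G (ν.eval x.length)) true)))] := by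
      have hq : ∀ t, nD e ν (pairBits x (List.replicate t false)) =
          false :: Dat.cT 0 (ν.eval x.length) t := by
        intro t
        unfold nD
        rw [unpair_pairBits]
        simp only [List.reverse_replicate, List.tail_replicate]
        rw [if_neg, if_neg]
        · simp
        · rw [List.head?_replicate]
          split_ifs <;> simp
        · rw [List.head?_replicate]
          split_ifs <;> simp
      intro k
      induction k with
      | zero =>
        intro t ht
        rw [zero_add] at ht
        have h1 : A (Dat.cT 0 (ν.eval x.length) t) = true := (hT _ _).2 ht.ge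
        have hq2 : nD e ν (pairBits x (List.replicate t false ++ [true])) =
            false :: tag false false e (pairBits x (List.replicate t true)) := by
          unfold nD
          rw [unpair_pairBits]
          simp only [List.reverse_append, List.reverse_replicate, List.reverse_cons,
            List.reverse_nil, List.nil_append, List.singleton_append, List.tail_cons,
            List.head?_cons, List.length_replicate]
          rw [if_neg]
          · simp
          · rw [List.head?_replicate]
            split_ifs <;> simp
        have hq3 : ∀ b, nD e ν (pairBits x (List.replicate t false ++ [true] ++ [b])) =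
            [true, b] := by
          intro b
          unfold nD
          rw [unpair_pairBits]
          simp
        simp only [Alg.run, hD, hq t, h1, hq2, hq3]
        rw [ht]
      | succ k ih =>
        intro t ht
        have h1 : A (Dat.cT 0 (ν.eval x.length) t) = false := by
          rw [← Bool.not_eq_true, hT]
          omega
        rw [show k + 1 + 3 = (k + 3) + 1 by ring, run_ask _ _ _ _ _ _ (hq t), h1,
          ← List.replicate_succ']
        exact ih (t + 1) (by omega)
    have h := key (G (ν.eval x.length)) 0 (by omega)
    simpa using h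
  · rw [← hL x]
    simp

/-! ### Space questions -/

theorem isNTime_of_code {G : ℕ → ℕ} {A : Oracle} {L : Set (List Bool)} {e : ℕ} {κ : Polynomial ℕ}
    (h1 : ∀ x b y, A (Dat.cQ e x b y) = true → (b = true ↔ x ∈ L))
    (h2 : ∀ x b, (b = true ↔ x ∈ L) →
        ∃ y : List Bool, y.length = G (κ.eval x.length) ∧ A (Dat.cQ e x b y) = true) :
    IsNTime (fun k => G (κ.eval k)) A L := by
  refine ⟨fun z => [A (Dat.cQ e (unpair z).2 true (unpair z).1)], ?_, fun x => ?_⟩
  · have hf : Poly (fun z : List Bool => (unpair z).1) := Poly.fst poly_unpair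
    have hs : Poly (fun z : List Bool => (unpair z).2) := Poly.snd poly_unpair
    have hc : Poly (fun z : List Bool => Dat.cQ e (unpair z).2 true (unpair z).1) :=
      poly_tag (Poly.cons (NPC.Poly.const true) (poly_pairBits hf hs)) _ _ _
    exact IsFP.tt (A := A) (Q := fun z => [Dat.cQ e (unpair z).2 true (unpair z).1])
      (H := fun y => y.2) (Poly.cons hc (NPC.Poly.const [])) (Poly.snd Poly.id)
  · constructor
    · intro hx
      obtain ⟨y, hy1, hy2⟩ := h2 x true (by simp [hx])
      refine ⟨y, hy1.le, ?_⟩
      simp only [unpair_pairBits, hy2]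
    · intro hx y hy
      simp only [unpair_pairBits, List.cons.injEq, and_true] at hy
      exact hx ((h1 x true y hy).1 rfl)

/-! ### Exponential time questions -/

/-- the next action -/
def sAct (e : ℕ) (l : Polynomial ℕ) (y : List Bool) : List Bool :=
  if (unpair y).2.head? = some true then false :: Dat.cE e (unpair y).1 (unpair y).2.tail.tail
  else if (unpair y).2.tail.head? = some true then true :: (unpair y).2.tail.tail
  else false :: Dat.cT 1 (l.eval (unpair y).1.length) (unpair y).2.length

/-- the next memory in the second phase -/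
def sUpd (b : Bool) (w : List Bool) : List Bool :=
  if PTask.inc w = PTask.zeros w then [false, true, b] else true :: b :: PTask.inc w

/-- the next memory, from the answer and the memory -/
def sN (c : Bool) (s : List Bool) : List Bool :=
  if s.head? = some true then sUpd (Bool.xor (s.tail.head?.getD false) c) s.tail.tail
  else if c = true then true :: false :: s else false :: s

/-- the next memory -/
def sNext (y : List Bool) : List Bool := sN ((unpair y).2.head?.getD false) (unpair y).2.tail

theorem poly_sAct (e : ℕ) (l : Polynomial ℕ) : Poly (sAct e l) := by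
  have h1 : Poly (fun y : List Bool => (unpair y).1) := Poly.fst poly_unpair
  have h2 : Poly (fun y : List Bool => (unpair y).2) := Poly.snd poly_unpair
  refine Poly.ite (Poly.decide_eq (Poly.head? h2) (NPC.Poly.const (some true))) ?_
    (Poly.ite (Poly.decide_eq (Poly.head? (Poly.tail h2)) (NPC.Poly.const (some true))) ?_ ?_)
  · exact Poly.cons (NPC.Poly.const false) (poly_tag (poly_pairBits (Poly.tail (Poly.tail h2)) h1)
      _ _ _)
  · exact Poly.cons (NPC.Poly.const true) (Poly.tail (Poly.tail h2))
  · exact Poly.cons (NPC.Poly.const false) (poly_cT (UPoly.eval (UPoly.length h1) l)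
      (UPoly.length h2) 1)

theorem poly_sNext : Poly sNext := by
  have h2 : Poly (fun y : List Bool => (unpair y).2) := Poly.snd poly_unpair
  have h3 : Poly (fun y : List Bool => (unpair y).2.tail) := Poly.tail h2
  have h4 : Poly (fun y : List Bool => (unpair y).2.head?.getD false) := PTask.poly_headD h2
  have h5 : Poly (fun y : List Bool => (unpair y).2.tail.tail.head?.getD false) :=
    PTask.poly_headD (Poly.tail h3)
  have h6 : Poly (fun y : List Bool => (unpair y).2.tail.tail.tail) := Poly.tail (Poly.tail h3)
  have h7 : Poly (fun y : List Bool => PTask.inc (unpair y).2.tail.tail.tail) :=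
    PTask.poly_inc.comp h6
  have h8 : Poly (fun y : List Bool => Bool.xor ((unpair y).2.tail.tail.head?.getD false)
      ((unpair y).2.head?.getD false)) := Poly.xor h5 h4
  refine Poly.ite (Poly.decide_eq (Poly.head? h3) (NPC.Poly.const (some true))) ?_
    (Poly.ite (Poly.decide_eq h4 (NPC.Poly.const true)) ?_ ?_)
  · refine Poly.ite (Poly.decide_eq h7 (PTask.poly_zeros.comp h6)) ?_ ?_
    · exact Poly.cons (NPC.Poly.const false) (Poly.cons (NPC.Poly.const true)
        (Poly.cons h8 (NPC.Poly.const [])))
    · exact Poly.cons (NPC.Poly.const true) (Poly.cons h8 h7)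
  · exact Poly.cons (NPC.Poly.const true) (Poly.cons (NPC.Poly.const false) h3)
  · exact Poly.cons (NPC.Poly.const false) h3

/-- the algorithm -/
def sAlg (e : ℕ) (l : Polynomial ℕ) : SAlg where
  act := sAct e l
  act_poly := polyTime_of_poly_list (poly_sAct e l)
  next := sNext
  next_poly := polyTime_of_poly_list poly_sNext

/-- the contents of the memory in the second phase -/
def cnt (h : ℕ → Bool) (W j : ℕ) : List Bool :=
  if j < 2 ^ W then true :: bpar h j :: bitsOf W j else [false, true, bpar h j]

theorem sUpd_eq (h : ℕ → Bool) {W j : ℕ} (hj : j < 2 ^ W) :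
    sUpd (Bool.xor (bpar h j) (h j)) (bitsOf W j) = cnt h W (j + 1) := by
  unfold sUpd cnt
  rw [PTask.inc_bitsOf, PTask.zeros_eq, length_bitsOf]
  simp only [PTask.bitsOf_eq_zero]
  by_cases h1 : j + 1 < 2 ^ W
  · rw [if_pos h1, if_neg]
    · rfl
    · rw [Nat.mod_eq_of_lt h1]
      omega
  · have h2 : j + 1 = 2 ^ W := by omega
    rw [if_neg h1, if_pos]
    · rfl
    · rw [h2, Nat.mod_self]

theorem isDSpace_of_code {G : ℕ → ℕ} {A : Oracle} {L : Set (List Bool)} {e : ℕ} {l : Polynomial ℕ}
    (hT : ∀ n t, A (Dat.cT 1 n t) = true ↔ G n ≤ t)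
    (hL : ∀ x : List Bool, bpar (fun j => A (Dat.cE e x (bitsOf (G (l.eval x.length)) j)))
      (2 ^ G (l.eval x.length)) = true ↔ x ∈ L) :
    IsDSpace (fun k => G (l.eval k) + 3) A L := by
  refine ⟨sAlg e l, fun x => ?_⟩
  set W := G (l.eval x.length) with hW
  set h : ℕ → Bool := fun j => A (Dat.cE e x (bitsOf W j)) with hh
  have hact : ∀ s, (sAlg e l).act (pairBits x s) = sAct e l (pairBits x s) := fun _ => rfl
  have hnext : ∀ c s, (sAlg e l).next (pairBits x (c :: s)) = sN c s := by
    intro c s
    show sN ((unpair (pairBits x (c :: s))).2.head?.getD false) (unpair (pairBits x (c :: s))).2.tail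
      = _
    rw [unpair_pairBits]
    rfl
  -- the first phase
  have a1 : ∀ t, sAct e l (pairBits x (List.replicate t false)) =
      false :: Dat.cT 1 (l.eval x.length) t := by
    intro t
    unfold sAct
    rw [unpair_pairBits]
    simp only [List.tail_replicate, List.length_replicate]
    rw [if_neg, if_neg]
    · rw [List.head?_replicate]
      split_ifs <;> simp
    · rw [List.head?_replicate]
      split_ifs <;> simp
  have n1 : ∀ t, t < W → sN (A (Dat.cT 1 (l.eval x.length) t)) (List.replicate t false) =
      List.replicate (t + 1) false := by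
    intro t ht
    have h1 : A (Dat.cT 1 (l.eval x.length) t) = false := by
      rw [← Bool.not_eq_true, hT]
      omega
    unfold sN
    rw [if_neg, h1, if_neg (by simp)]
    · rw [List.replicate_succ]
    · rw [List.head?_replicate]
      split_ifs <;> simp
  have hb0 : bitsOf W 0 = List.replicate W false :=
    (PTask.bitsOf_eq_zero W 0).2 (Nat.zero_mod _)
  have n2 : sN (A (Dat.cT 1 (l.eval x.length) W)) (List.replicate W false) = cnt h W 0 := by
    have h1 : A (Dat.cT 1 (l.eval x.length) W) = true := (hT _ _).2 le_rfl
    unfold sN cnt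
    rw [if_neg, h1, if_pos rfl, if_pos (by positivity), hb0]
    · rfl
    · rw [List.head?_replicate]
      split_ifs <;> simp
  -- the second phase
  have a2 : ∀ j, j < 2 ^ W → sAct e l (pairBits x (cnt h W j)) =
      false :: Dat.cE e x (bitsOf W j) := by
    intro j hj
    unfold sAct cnt
    rw [unpair_pairBits, if_pos hj]
    simp
  have n3 : ∀ j, j < 2 ^ W → sN (A (Dat.cE e x (bitsOf W j))) (cnt h W j) = cnt h W (j + 1) := by
    intro j hj
    rw [← sUpd_eq h hj]
    unfold sN cnt
    rw [if_pos hj, if_pos (by simp)]
    simp [hh]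
  have a3 : sAct e l (pairBits x (cnt h W (2 ^ W))) = [true, bpar h (2 ^ W)] := by
    unfold sAct cnt
    rw [unpair_pairBits, if_neg (lt_irrefl _)]
    simp
  have r1 : ∀ t, t ≤ W → (sAlg e l).Reach A x (List.replicate t false) := by
    intro t
    induction t with
    | zero => exact fun _ => SAlg.Reach.start
    | succ t ih =>
      intro ht
      have h1 := SAlg.Reach.step (ih (by omega)) (a1 t)
      rw [hnext, n1 t (by omega)] at h1
      exact h1
  have r2 : ∀ j, j ≤ 2 ^ W → (sAlg e l).Reach A x (cnt h W j) := by
    intro j
    induction j with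
    | zero =>
      intro _
      have h1 := SAlg.Reach.step (r1 W le_rfl) (a1 W)
      rw [hnext, n2] at h1
      exact h1
    | succ j ih =>
      intro hj
      have h1 := SAlg.Reach.step (ih (by omega)) (a2 j (by omega))
      rw [hnext, n3 j (by omega)] at h1
      exact h1
  have inv : ∀ s, (sAlg e l).Reach A x s → (∃ t, t ≤ W ∧ s = List.replicate t false) ∨
      ∃ j, j ≤ 2 ^ W ∧ s = cnt h W j := by
    intro s hs
    induction hs with
    | start => exact Or.inl ⟨0, Nat.zero_le _, rfl⟩
    | step _ hr ih =>
      rw [hact] at hr
      rw [hnext]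
      rcases ih with ⟨t, ht, rfl⟩ | ⟨j, hj, rfl⟩
      · rw [a1, List.cons.injEq] at hr
        rw [← hr.2]
        rcases Nat.lt_or_ge t W with h1 | h1
        · exact Or.inl ⟨t + 1, h1, n1 t h1⟩
        · have h2 : t = W := le_antisymm ht h1
          subst h2
          exact Or.inr ⟨0, Nat.zero_le _, n2⟩
      · rcases Nat.lt_or_ge j (2 ^ W) with h1 | h1
        · rw [a2 j h1, List.cons.injEq] at hr
          rw [← hr.2]
          exact Or.inr ⟨j + 1, h1, n3 j h1⟩
        · have h2 : j = 2 ^ W := le_antisymm hj h1
          rw [h2, a3] at hr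
          simp at hr
  refine ⟨fun s hs => ?_, cnt h W (2 ^ W), [bpar h (2 ^ W)], r2 _ le_rfl, a3, ?_⟩
  · show s.length ≤ W + 3
    rcases inv s hs with ⟨t, ht, rfl⟩ | ⟨j, hj, rfl⟩
    · rw [List.length_replicate]
      omega
    · unfold cnt
      split_ifs
      · simp only [List.length_cons, length_bitsOf]
        omega
      · simp
  · rw [← hL x, List.cons.injEq, and_iff_left rfl]

end Pool.Agent.W990.Gap
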