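import Pool.Agent.H620R2.Gauge.Defs
import Pool.Agent.H620R2.Gauge.C
import Pool.Agent.H620R2.Gauge.S
import Pool.Agent.H620R2.Gauge.Event

/-!
# An oracle with three kinds of codes: the recursion

(helper990)
-/

namespace Pool.Agent.W990.Gap

open Pool.Agent.NPC Pool.Agent.H620R2.Gauge

/-- tagged strings -/
def tag (a b : Bool) (e : ℕ) (z : List Bool) : List Bool :=
  List.replicate e true ++ false :: (a :: b :: z)

theorem tag_inj {a b a' b' : Bool} {e e' : ℕ} {z z' : List Bool}
    (h : tag a b e z = tag a' b' e' z') : a = a' ∧ b = b' ∧ e = e' ∧ z = z' := by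
  obtain ⟨h1, h2⟩ := CC.rep_inj _ _ _ _ h
  simp only [List.cons.injEq] at h2
  exact ⟨h2.1, h2.2.1, h1, h2.2.2⟩

theorem length_tag (a b : Bool) (e : ℕ) (z : List Bool) :
    (tag a b e z).length = e + 3 + z.length := by
  simp only [tag, List.length_append, List.length_replicate, List.length_cons]
  omega

theorem pair_inj {w w' x x' : List Bool} (h : pairBits w x = pairBits w' x') :
    w = w' ∧ x = x' := by
  have h1 := congrArg unpair h
  rw [unpair_pairBits, unpair_pairBits] at h1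
  exact ⟨congrArg Prod.fst h1, congrArg Prod.snd h1⟩

theorem len_pair (x w : List Bool) : (pairBits x w).length = 2 * x.length + 1 + w.length :=
  length_pairBits x w

/-- The data: gap functions and three families of questions about the oracle. -/
structure Dat where
  /-- the gap for nondeterministic questions -/
  G1 : ℕ → ℕ
  /-- the gap for space questions -/
  G2 : ℕ → ℕ
  /-- the gap for exponential time questions -/
  G3 : ℕ → ℕ
  /-- the levels of the nondeterministic questions -/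
  nn : ℕ → ℕ → ℕ
  /-- the nondeterministic questions -/
  NP : ℕ → List Bool → Oracle → Prop
  /-- the levels of the space questions -/
  qq : ℕ → ℕ → ℕ
  /-- the space questions -/
  QP : ℕ → List Bool → Oracle → Prop
  /-- the levels of the exponential time questions -/
  ll : ℕ → ℕ → ℕ
  /-- the exponential time algorithms -/
  M : ℕ → Alg
  /-- the numbers of rounds -/
  r : ℕ → ℕ → ℕ

namespace Dat

variable (d : Dat)

/-- the gap functions -/
def GT (i : ℕ) : ℕ → ℕ := if i = 0 then d.G1 else d.G3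

/-- the code of a nondeterministic question -/
def cN (e : ℕ) (x : List Bool) : List Bool :=
  tag false false e (pairBits x (List.replicate (d.G1 (d.nn e x.length)) true))

/-- the codes of a space question -/
def cQ (e : ℕ) (x : List Bool) (b : Bool) (y : List Bool) : List Bool :=
  tag false true e (b :: pairBits y x)

/-- the codes of an exponential time question -/
def cE (e : ℕ) (x y : List Bool) : List Bool := tag true false e (pairBits y x)

/-- the table of the gap functions -/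
def cT (i n t : ℕ) : List Bool :=
  tag true true i (pairBits (List.replicate n true) (List.replicate t true))

theorem cN_inj {e e' : ℕ} {x x' : List Bool} (h : d.cN e x = d.cN e' x') : e = e' ∧ x = x' := by
  obtain ⟨_, _, h3, h4⟩ := tag_inj h
  exact ⟨h3, (pair_inj h4).1⟩

theorem cQ_inj {e e' : ℕ} {x x' y y' : List Bool} {b b' : Bool}
    (h : cQ e x b y = cQ e' x' b' y') : e = e' ∧ x = x' ∧ b = b' ∧ y = y' := by
  obtain ⟨_, _, h3, h4⟩ := tag_inj h
  obtain ⟨h5, h6⟩ := List.cons.inj h4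
  exact ⟨h3, (pair_inj h6).2, h5, (pair_inj h6).1⟩

theorem cE_inj {e e' : ℕ} {x x' y y' : List Bool}
    (h : cE e x y = cE e' x' y') : e = e' ∧ x = x' ∧ y = y' := by
  obtain ⟨_, _, h3, h4⟩ := tag_inj h
  exact ⟨h3, (pair_inj h4).2, (pair_inj h4).1⟩

theorem cT_inj {i i' n n' t t' : ℕ}
    (h : cT i n t = cT i' n' t') : i = i' ∧ n = n' ∧ t = t' := by
  obtain ⟨_, _, h3, h4⟩ := tag_inj h
  obtain ⟨h5, h6⟩ := pair_inj h4
  refine ⟨h3, ?_, ?_⟩
  · simpa using congrArg List.length h5
  · simpa using congrArg List.length h6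

theorem cN_ne_cQ {e e' : ℕ} {x x' y : List Bool} {b : Bool} : d.cN e x ≠ cQ e' x' b y := by
  intro h; obtain ⟨_, h2, _⟩ := tag_inj h; exact absurd h2 (by decide)
theorem cN_ne_cE {e e' : ℕ} {x x' y : List Bool} : d.cN e x ≠ cE e' x' y := by
  intro h; obtain ⟨h2, _, _⟩ := tag_inj h; exact absurd h2 (by decide)
theorem cN_ne_cT {e : ℕ} {x : List Bool} {i n t : ℕ} : d.cN e x ≠ cT i n t := by
  intro h; obtain ⟨h2, _, _⟩ := tag_inj h; exact absurd h2 (by decide)
theorem cQ_ne_cE {e e' : ℕ} {x x' y y' : List Bool} {b : Bool} : cQ e x b y ≠ cE e' x' y' := by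
  intro h; obtain ⟨h2, _, _⟩ := tag_inj h; exact absurd h2 (by decide)
theorem cQ_ne_cT {e : ℕ} {x y : List Bool} {b : Bool} {i n t : ℕ} : cQ e x b y ≠ cT i n t := by
  intro h; obtain ⟨h2, _, _⟩ := tag_inj h; exact absurd h2 (by decide)
theorem cE_ne_cT {e : ℕ} {x y : List Bool} {i n t : ℕ} : cE e x y ≠ cT i n t := by
  intro h; obtain ⟨_, h2, _⟩ := tag_inj h; exact absurd h2 (by decide)

theorem lt_cN (e : ℕ) (x : List Bool) : d.G1 (d.nn e x.length) < (d.cN e x).length := by
  rw [cN, length_tag, len_pair, List.length_replicate]; omega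

theorem lt_cQ (e : ℕ) (x : List Bool) (b : Bool) (y : List Bool) :
    y.length < (cQ e x b y).length := by
  rw [cQ, length_tag, List.length_cons, len_pair]; omega

theorem lt_cE (e : ℕ) (x y : List Bool) : y.length < (cE e x y).length := by
  rw [cE, length_tag, len_pair]; omega

/-- the condition for a string to be in the oracle -/
def Rule (f : List Bool → Bool) (Z : Set (List Bool)) (A : Oracle) (u : List Bool) : Prop :=
  (∃ e x, u = d.cN e x ∧ d.NP e x A) ∨
  (∃ e x b y, u = cQ e x b y ∧ y.length = d.G2 (d.qq e x.length) ∧ (b = true ↔ d.QP e x A) ∧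
    u ∉ Z) ∨
  (∃ e x y, u = cE e x y ∧ y.length = d.G3 (d.ll e x.length) ∧ f u = true) ∨
  (∃ i n t, u = cT i n t ∧ d.GT i n ≤ t)

open Classical in
/-- the oracle -/
noncomputable def O (f : List Bool → Bool) (Z : Set (List Bool)) (u : List Bool) : Bool :=
  decide (d.Rule f Z (fun z => if _hz : z.length < u.length then O f Z z else false) u)
termination_by u.length

/-- the questions are local -/
structure Loc (d : Dat) : Prop where
  mono1 : Monotone d.G1
  mono2 : Monotone d.G2
  mono3 : Monotone d.G3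
  le1 : ∀ n, n ≤ d.G1 n
  le2 : ∀ n, n ≤ d.G2 n
  locN : ∀ e x A A', (∀ z : List Bool, z.length ≤ d.nn e x.length → A z = A' z) →
    (d.NP e x A ↔ d.NP e x A')
  locQ : ∀ e x A A', (∀ z : List Bool, z.length ≤ d.qq e x.length → A z = A' z) →
    (d.QP e x A ↔ d.QP e x A')

variable {d} (h : Loc d)

theorem rule_congr (h : Loc d) {f f' : List Bool → Bool} {Z Z' : Set (List Bool)} {A A' : Oracle}
    {u : List Bool} (hA : ∀ z : List Bool, z.length < u.length → A z = A' z)
    (hf : ∀ e x y, u = cE e x y → y.length = d.G3 (d.ll e x.length) → f u = f' u)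
    (hZ : ∀ e x b y, u = cQ e x b y → y.length = d.G2 (d.qq e x.length) → (u ∈ Z ↔ u ∈ Z')) :
    d.Rule f Z A u ↔ d.Rule f' Z' A' u := by
  have key : ∀ {f f' : List Bool → Bool} {Z Z' : Set (List Bool)} {A A' : Oracle},
      (∀ z : List Bool, z.length < u.length → A z = A' z) →
      (∀ e x y, u = cE e x y → y.length = d.G3 (d.ll e x.length) → f u = f' u) →
      (∀ e x b y, u = cQ e x b y → y.length = d.G2 (d.qq e x.length) → (u ∈ Z ↔ u ∈ Z')) →
      d.Rule f Z A u → d.Rule f' Z' A' u := by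
    intro f f' Z Z' A A' hA hf hZ hR
    rcases hR with ⟨e, x, h1, h2⟩ | ⟨e, x, b, y, h1, h2, h3, h4⟩ | ⟨e, x, y, h1, h2, h3⟩ | h1
    · left
      refine ⟨e, x, h1, (h.locN e x A A' fun z hz => hA z ?_).1 h2⟩
      have h5 := d.lt_cN e x
      have h6 := h.le1 (d.nn e x.length)
      rw [h1]
      omega
    · right; left
      refine ⟨e, x, b, y, h1, h2, ?_, ?_⟩
      · rw [h3]
        refine h.locQ e x A A' fun z hz => hA z ?_
        have h5 := lt_cQ e x b y
        have h6 := h.le2 (d.qq e x.length)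
        rw [h1]
        omega
      · rwa [← hZ e x b y h1 h2]
    · right; right; left
      exact ⟨e, x, y, h1, h2, by rw [← hf e x y h1 h2]; exact h3⟩
    · right; right; right
      exact h1
  constructor
  · exact key hA hf hZ
  · exact key (fun z hz => (hA z hz).symm) (fun e x y h1 h2 => (hf e x y h1 h2).symm)
      (fun e x b y h1 h2 => (hZ e x b y h1 h2).symm)

theorem O_iff (h : Loc d) (f : List Bool → Bool) (Z : Set (List Bool)) (u : List Bool) :
    d.O f Z u = true ↔ d.Rule f Z (d.O f Z) u := by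
  classical
  rw [O, decide_eq_true_iff]
  refine rule_congr h (fun z hz => ?_) (fun _ _ _ _ _ => rfl) (fun _ _ _ _ _ _ => Iff.rfl)
  rw [dif_pos hz]

theorem O_cN (h : Loc d) (f : List Bool → Bool) (Z : Set (List Bool)) (e : ℕ) (x : List Bool) :
    d.O f Z (d.cN e x) = true ↔ d.NP e x (d.O f Z) := by
  rw [O_iff h]
  constructor
  · rintro (⟨e', x', h1, h2⟩ | ⟨e', x', b, y, h1, _⟩ | ⟨e', x', y, h1, _⟩ | ⟨i, n, t, h1, _⟩)
    · obtain ⟨rfl, rfl⟩ := d.cN_inj h1
      exact h2
    · exact absurd h1 d.cN_ne_cQ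
    · exact absurd h1 d.cN_ne_cE
    · exact absurd h1 d.cN_ne_cT
  · exact fun h1 => Or.inl ⟨e, x, rfl, h1⟩

theorem O_cQ (h : Loc d) (f : List Bool → Bool) (Z : Set (List Bool)) (e : ℕ) (x : List Bool)
    (b : Bool) (y : List Bool) :
    d.O f Z (cQ e x b y) = true ↔ y.length = d.G2 (d.qq e x.length) ∧
      (b = true ↔ d.QP e x (d.O f Z)) ∧ cQ e x b y ∉ Z := by
  rw [O_iff h]
  constructor
  · rintro (⟨e', x', h1, h2⟩ | ⟨e', x', b', y', h1, h2, h3⟩ | ⟨e', x', y, h1, _⟩ | ⟨i, n, t, h1, _⟩)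
    · exact absurd h1.symm d.cN_ne_cQ
    · obtain ⟨rfl, rfl, rfl, rfl⟩ := cQ_inj h1
      exact ⟨h2, h3⟩
    · exact absurd h1 cQ_ne_cE
    · exact absurd h1 cQ_ne_cT
  · exact fun h1 => Or.inr (Or.inl ⟨e, x, b, y, rfl, h1⟩)

theorem O_cE (h : Loc d) (f : List Bool → Bool) (Z : Set (List Bool)) (e : ℕ) (x y : List Bool) :
    d.O f Z (cE e x y) = true ↔ y.length = d.G3 (d.ll e x.length) ∧ f (cE e x y) = true := by
  rw [O_iff h]
  constructor
  · rintro (⟨e', x', h1, h2⟩ | ⟨e', x', b', y', h1, h2, h3⟩ | ⟨e', x', y', h1, h2⟩ |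
      ⟨i, n, t, h1, _⟩)
    · exact absurd h1.symm d.cN_ne_cE
    · exact absurd h1.symm cQ_ne_cE
    · obtain ⟨rfl, rfl, rfl⟩ := cE_inj h1
      exact h2
    · exact absurd h1 cE_ne_cT
  · exact fun h1 => Or.inr (Or.inr (Or.inl ⟨e, x, y, rfl, h1⟩))

theorem O_cT (h : Loc d) (f : List Bool → Bool) (Z : Set (List Bool)) (i n t : ℕ) :
    d.O f Z (cT i n t) = true ↔ d.GT i n ≤ t := by
  rw [O_iff h]
  constructor
  · rintro (⟨e', x', h1, h2⟩ | ⟨e', x', b', y', h1, h2, h3⟩ | ⟨e', x', y', h1, h2⟩ |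
      ⟨i, n, t, h1, h2⟩)
    · exact absurd h1.symm d.cN_ne_cT
    · exact absurd h1.symm cQ_ne_cT
    · exact absurd h1.symm cE_ne_cT
    · obtain ⟨rfl, rfl, rfl⟩ := cT_inj h1
      exact h2
  · exact fun h1 => Or.inr (Or.inr (Or.inr ⟨i, n, t, rfl, h1⟩))

theorem O_not (h : Loc d) (f : List Bool → Bool) (Z : Set (List Bool)) (u : List Bool)
    (h1 : ∀ e x, u ≠ d.cN e x) (h2 : ∀ e x b y, u ≠ cQ e x b y) (h3 : ∀ e x y, u ≠ cE e x y)
    (h4 : ∀ i n t, u ≠ cT i n t) : d.O f Z u = false := by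
  rw [← Bool.not_eq_true, O_iff h]
  rintro (⟨e', x', h5, _⟩ | ⟨e', x', b', y', h5, _⟩ | ⟨e', x', y', h5, _⟩ | ⟨i, n, t, h5, _⟩)
  · exact h1 _ _ h5
  · exact h2 _ _ _ _ h5
  · exact h3 _ _ _ h5
  · exact h4 _ _ _ h5

theorem agree (h : Loc d) {f f' : List Bool → Bool} {Z Z' : Set (List Bool)} {L : ℕ}
    (hf : ∀ e x y, (cE e x y).length < L → y.length = d.G3 (d.ll e x.length) →
      f (cE e x y) = f' (cE e x y))
    (hZ : ∀ e x b y, (cQ e x b y).length < L → y.length = d.G2 (d.qq e x.length) →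
      (cQ e x b y ∈ Z ↔ cQ e x b y ∈ Z')) (u : List Bool) (hu : u.length < L) :
    d.O f Z u = d.O f' Z' u := by
  generalize hn : u.length = n
  induction n using Nat.strong_induction_on generalizing u with
  | _ n ih =>
    rw [Bool.eq_iff_iff, O_iff h, O_iff h]
    refine rule_congr h (fun z hz => ih z.length (by omega) z (by omega) rfl) ?_ ?_
    · rintro e x y rfl h1
      exact hf e x y hu h1
    · rintro e x b y rfl h1
      exact hZ e x b y hu h1

end Dat

end Pool.Agent.W990.Gap
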