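import Pool.Agent.H620R2.Gauge2.Defs

/-!
# Time, nondeterministic time and space bounds relative to an oracle

(helper990; continues `Pool.Agent.H620R2.Gauge.Defs` and `Pool.Agent.H620R2.Gauge2.Defs`)
-/

namespace Pool.Agent.W990.Gap

open Pool.Agent.NPC Pool.Agent.H620R2.Gauge

/-- The language `L` is decided relative to `A` by a deterministic oracle algorithm within
`T |x|` rounds on the input `x`. (In every round the work and the length of the question are
polynomially bounded in `|x|` and the number of the former rounds, so that the running time is
polynomially bounded in `T |x| + |x|`.) -/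
def IsDTime (T : ℕ → ℕ) (A : Oracle) (L : Set (List Bool)) : Prop :=
  ∃ M : Alg, ∀ x, ∃ z, M.run A x (T x.length) [] = some z ∧ (x ∈ L ↔ z = [true])

/-- The language `L` is accepted relative to `A` in nondeterministic time `T`: some algorithm `V`,
computable relative to `A` in polynomial time, accepts `⟨w, x⟩` for some string `w` of length at
most `T |x|` if `x` is in `L`, and for no string `w` at all if `x` is not in `L`. (The time for the
computation of `V ⟨w, x⟩` is polynomially bounded in `|w| + |x|`.) -/
def IsNTime (T : ℕ → ℕ) (A : Oracle) (L : Set (List Bool)) : Prop :=
  ∃ V : List Bool → List Bool, IsFP A V ∧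
    ∀ x, (x ∈ L → ∃ w : List Bool, w.length ≤ T x.length ∧ V (pairBits w x) = [true]) ∧
      (x ∉ L → ∀ w : List Bool, V (pairBits w x) ≠ [true])

/-- The language `L` is decided relative to `A` by a deterministic oracle algorithm working on a
memory of length at most `T |x|` on the input `x`. (In every round the work and the length of the
question are polynomially bounded in the lengths of `x` and of the memory. There is no bound on the
number of rounds.) -/
def IsDSpace (T : ℕ → ℕ) (A : Oracle) (L : Set (List Bool)) : Prop :=
  ∃ M : SAlg, ∀ x, (∀ s, M.Reach A x s → s.length ≤ T x.length) ∧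
    ∃ s z, M.Reach A x s ∧ M.act (pairBits x s) = true :: z ∧ (x ∈ L ↔ z = [true])

end Pool.Agent.W990.Gap
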