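import Pool.Agent.W990.Gap.Seq
import Pool.Agent.W990.Gap.Defs
import Pool.Agent.H620R2.GaugeX.X8
import Pool.Agent.H620R2.GaugeX.X9
import Pool.Agent.H620R2.Gauge.Upper

/-!
# The oracle for all algorithms

(helper990)
-/

namespace Pool.Agent.W990.Gap

open Pool.Agent.NPC Pool.Agent.H620R2.Gauge Pool.Agent.H622R2

namespace Inst

theorem alg_nonempty : Nonempty Alg := by
  obtain ⟨M, _⟩ := IsFP.of_poly (A := fun _ => false) (F := fun x => x) Poly.id
  exact ⟨M⟩

theorem exists_alg : ∃ g : ℕ → Alg, Function.Surjective g := by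
  have := alg_nonempty
  exact exists_surjective_nat Alg

theorem exists_nal : ∃ g : ℕ → Alg × Polynomial ℕ, Function.Surjective g := by
  have := alg_nonempty
  have h1 := CC.poly_countable
  exact exists_surjective_nat _

/-- the nondeterministic question -/
def QN (M : Alg) (p : Polynomial ℕ) (x : List Bool) (A : Oracle) : Prop :=
  ∃ w : List Bool, w.length ≤ p.eval x.length ∧ M.out A (pairBits w x) = some [true]

theorem exists_nn (M : Alg) (p : Polynomial ℕ) : ∃ ν : Polynomial ℕ, ∀ (A : Oracle) (x : List Bool),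
    QN M p x A → ∃ W : Finset (List Bool), W.card ≤ ν.eval x.length ∧
      (∀ w ∈ W, w.length ≤ ν.eval x.length) ∧
      ∀ A' : Oracle, (∀ w ∈ W, A' w = A w) → QN M p x A' := by
  obtain ⟨qb, hqb⟩ := M.out_local
  refine ⟨(M.p + qb).comp (Polynomial.C 2 * p + Polynomial.C 1 + Polynomial.X), fun A x => ?_⟩
  rintro ⟨w, hw, hw2⟩
  obtain ⟨W, h1, h2, h3⟩ := hqb A (pairBits w x)
  have hlen : (pairBits w x).length ≤
      (Polynomial.C 2 * p + Polynomial.C 1 + Polynomial.X).eval x.length := by
    rw [len_pair]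
    simp only [Polynomial.eval_add, Polynomial.eval_mul, Polynomial.eval_C, Polynomial.eval_X]
    omega
  have h4 := eval_mono M.p hlen
  have h5 := eval_mono qb hlen
  rw [Polynomial.eval_comp, Polynomial.eval_add]
  refine ⟨W, by omega, fun u hu => ?_, fun A' hA' => ⟨w, hw, ?_⟩⟩
  · have := h2 u hu
    omega
  · rw [h3 A' hA', hw2]

/-- the levels of the exponential time questions -/
theorem exists_ll (M : Alg) (e : ℕ) : ∃ l : Polynomial ℕ, (∀ k, e + k ≤ l.eval k) ∧
    (∀ k, 2 ^ M.p.eval k ≤ 2 ^ l.eval k) ∧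
    ∀ x a q, a.length < 2 ^ M.p.eval x.length → M.D (pairBits x a) = false :: q →
      q.length ≤ 2 ^ l.eval x.length := by
  obtain ⟨q, hq⟩ := (poly_of_polyTime M.poly).sz_le
  obtain ⟨r, hr⟩ := exists_exp_bound (q.comp (Polynomial.C 8 * Polynomial.X + Polynomial.C 1)) M.p
  refine ⟨r + M.p + Polynomial.X + Polynomial.C e, fun k => ?_, fun k => ?_, fun x a u ha hu => ?_⟩
  · simp only [Polynomial.eval_add, Polynomial.eval_X, Polynomial.eval_C]
    omega
  · refine Nat.pow_le_pow_right (by norm_num) ?_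
    simp only [Polynomial.eval_add, Polynomial.eval_X, Polynomial.eval_C]
    omega
  · have h1 := length_lt_sz (M.D (pairBits x a))
    have h2 := hq (pairBits x a)
    have h3 := sz_listBool_le (pairBits x a)
    rw [len_pair] at h3
    have h4 := hr x.length
    rw [Polynomial.eval_comp] at h4
    have h5 : sz (pairBits x a) ≤ (Polynomial.C 8 * Polynomial.X + Polynomial.C 1).eval
        (2 * 2 ^ M.p.eval x.length + 1 + x.length) := by
      simp only [Polynomial.eval_add, Polynomial.eval_mul, Polynomial.eval_C, Polynomial.eval_X]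
      omega
    have h6 := eval_mono q h5
    have h7 : 2 ^ r.eval x.length ≤ 2 ^ (r + M.p + Polynomial.X + Polynomial.C e).eval x.length := by
      refine Nat.pow_le_pow_right (by norm_num) ?_
      simp only [Polynomial.eval_add, Polynomial.eval_X, Polynomial.eval_C]
      omega
    rw [hu, List.length_cons] at h1
    rw [hu] at h2
    omega

end Inst

open Inst Dat in
/-- **The oracle for all algorithms.** -/
theorem exists_world {G1 G2 G3 : ℕ → ℕ} (m1 : Monotone G1) (m2 : Monotone G2) (m3 : Monotone G3)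
    (h1 : ∀ n, n ≤ G1 n) (h2 : ∀ n, 4 * n + 3 ≤ G2 n) (h3 : ∀ n, 4 * n + 3 ≤ G3 n)
    (b1 : ∀ m, 2 ^ m < G1 (G1 (G3 m))) (b2 : ∀ m, 2 ^ m < G1 (G2 (G3 m))) : ∃ A : Oracle,
    (∀ L, IsNP A L → ∃ (e : ℕ) (ν : Polynomial ℕ), ∀ x,
      A (tag false false e (pairBits x (List.replicate (G1 (ν.eval x.length)) true))) = true ↔
        x ∈ L) ∧
    (∀ L, IsPSPACE A L → ∃ (e : ℕ) (κ : Polynomial ℕ),
      (∀ x b y, A (cQ e x b y) = true → (b = true ↔ x ∈ L)) ∧
      ∀ x b, (b = true ↔ x ∈ L) →
        ∃ y : List Bool, y.length = G2 (κ.eval x.length) ∧ A (cQ e x b y) = true) ∧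
    (∀ L, IsEXP A L → ∃ (e : ℕ) (l : Polynomial ℕ), ∀ x,
      bpar (fun j => A (cE e x (bitsOf (G3 (l.eval x.length)) j))) (2 ^ G3 (l.eval x.length)) =
        true ↔ x ∈ L) ∧
    (∀ n t, A (cT 0 n t) = true ↔ G1 n ≤ t) ∧ (∀ n t, A (cT 1 n t) = true ↔ G3 n ≤ t) := by
  obtain ⟨g1, hg1⟩ := exists_nal
  obtain ⟨g2, hg2⟩ := CC.exists_enum
  obtain ⟨g3, hg3⟩ := exists_alg
  choose ν hν using exists_nn
  choose κ hκ using pspace_task
  choose l hl1 hl2 hl3 using exists_ll
  let d : Dat :=
    { G1 := G1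
      G2 := G2
      G3 := G3
      nn := fun e k => (ν (g1 e).1 (g1 e).2).eval k
      NP := fun e x A => QN (g1 e).1 (g1 e).2 x A
      qq := fun e k => (κ (g2 e).1 (g2 e).2).eval k
      QP := fun e x A => CC.Acc (g2 e).1 (CC.cut ((κ (g2 e).1 (g2 e).2).eval x.length) A) x
      ll := fun e k => (l (g3 e) e).eval k
      M := g3
      r := fun e k => 2 ^ (g3 e).p.eval k }
  have hfull : Full d :=
    { mono1 := m1
      mono2 := m2
      mono3 := m3
      le1 := h1
      le2 := fun n => by have := h2 n; show n ≤ G2 n; omega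
      locN := by
        intro e x A A' hA
        constructor
        · intro hP
          obtain ⟨W, _, k2, k3⟩ := hν _ _ A x hP
          exact k3 A' fun w hw => (hA w (k2 w hw)).symm
        · intro hP
          obtain ⟨W, _, k2, k3⟩ := hν _ _ A' x hP
          exact k3 A fun w hw => hA w (k2 w hw)
      locQ := by
        intro e x A A' hA
        have hcut : CC.cut ((κ (g2 e).1 (g2 e).2).eval x.length) A =
            CC.cut ((κ (g2 e).1 (g2 e).2).eval x.length) A' := by
          funext z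
          unfold CC.cut
          split_ifs with hz
          · exact hA z hz
          · rfl
        show CC.Acc _ (CC.cut _ A) x ↔ CC.Acc _ (CC.cut _ A') x
        rw [hcut]
      big1 := b1
      big2 := b2
      cert := fun e x A hP => hν _ _ A x hP
      lin2 := h2
      lin3 := h3
      lev := fun e k => hl1 _ e k
      rnd := fun e k => hl2 _ e k
      que := fun e x a q ha hq => hl3 _ e x a q ha hq }
  obtain ⟨A, hA1, hA2, hA3, hA4, hA5⟩ := exists_oracle hfull
  refine ⟨A, ?_, ?_, ?_, fun n t => hA5 0 n t, fun n t => hA5 1 n t⟩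
  · rintro L ⟨V, p, ⟨M, hM⟩, hL⟩
    obtain ⟨e, he⟩ := hg1 (M, p)
    refine ⟨e, ν M p, fun x => ?_⟩
    have h4 := hA1 e x
    have h5 : d.cN e x = tag false false e (pairBits x
        (List.replicate (G1 ((ν M p).eval x.length)) true)) := by
      show tag false false e (pairBits x (List.replicate (G1 ((ν (g1 e).1 (g1 e).2).eval x.length))
        true)) = _
      rw [he]
    rw [← h5, h4, hL]
    show (∃ w : List Bool, w.length ≤ (g1 e).2.eval x.length ∧
      (g1 e).1.out A (pairBits w x) = some [true]) ↔ _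
    rw [he]
    simp only [hM, Option.some.injEq]
  · rintro L ⟨M, p, hM⟩
    obtain ⟨e, he⟩ := hg2 (M, p)
    have h4 := hκ M p A L hM
    have h5 : ∀ x, d.QP e x A ↔ x ∈ L := by
      intro x
      rw [h4 x]
      show CC.Acc (g2 e).1 (CC.cut ((κ (g2 e).1 (g2 e).2).eval x.length) A) x ↔ _
      rw [he]
    refine ⟨e, κ M p, fun x b y hy => ?_, fun x b hb => ?_⟩
    · rw [hA2 e x b y hy, h5 x]
    · obtain ⟨y, hy1, hy2⟩ := hA3 e x b (by rw [hb, h5 x])
      refine ⟨y, ?_, hy2⟩
      rw [hy1]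
      show G2 ((κ (g2 e).1 (g2 e).2).eval x.length) = _
      rw [he]
  · rintro L ⟨M, hM⟩
    obtain ⟨e, he⟩ := hg3 M
    refine ⟨e, l M e, fun x => ?_⟩
    have h4 := hA4 e x
    have h5 : blk d A e x = bpar (fun j => A (cE e x (bitsOf (G3 ((l M e).eval x.length)) j)))
        (2 ^ G3 ((l M e).eval x.length)) := by
      show bpar (fun j => A (cE e x (bitsOf (G3 ((l (g3 e) e).eval x.length)) j)))
        (2 ^ G3 ((l (g3 e) e).eval x.length)) = _
      rw [he]
    rw [← h5, h4]
    show (g3 e).run A x (2 ^ (g3 e).p.eval x.length) [] = some [true] ↔ _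
    rw [he]
    obtain ⟨z, hz1, hz2⟩ := hM x
    rw [hz1, hz2, Option.some.injEq]

end Pool.Agent.W990.Gap
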