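import Pool.Agent.W990.Gap.Stage
import Pool.Agent.H620R2.GaugeX.X1

/-!
# The stages of the construction

(helper990)
-/

namespace Pool.Agent.W990.Gap

open Pool.Agent.NPC Pool.Agent.H620R2.Gauge Finset

/-- the parity of the bits `h 0, …, h (k - 1)` -/
def bpar (h : ℕ → Bool) : ℕ → Bool
  | 0 => false
  | k + 1 => Bool.xor (bpar h k) (h k)

theorem bpar_congr {h h' : ℕ → Bool} {k : ℕ} (hh : ∀ j < k, h j = h' j) :
    bpar h k = bpar h' k := by
  induction k with
  | zero => rfl
  | succ k ih =>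
    rw [bpar, bpar, ih fun j hj => hh j (by omega), hh k (by omega)]

theorem bpar_update {h : ℕ → Bool} {k j : ℕ} (hj : j < k) (b : Bool) :
    bpar (Function.update h j b) k = Bool.xor (bpar h k) (Bool.xor (h j) b) := by
  induction k with
  | zero => omega
  | succ k ih =>
    rcases Nat.lt_succ_iff_lt_or_eq.1 hj with h1 | h1
    · rw [bpar, bpar, ih h1, Function.update_of_ne (by omega)]
      cases bpar h k <;> cases h k <;> cases h j <;> cases b <;> rfl
    · subst h1
      rw [bpar, bpar, Function.update_self, bpar_congr (h' := h) fun i hi =>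
        Function.update_of_ne (by omega) _ _]
      cases bpar h j <;> cases h j <;> cases b <;> rfl

theorem exists_bpar (h : ℕ → Bool) {k j : ℕ} (hj : j < k) (v : Bool) :
    ∃ b, bpar (Function.update h j b) k = v := by
  refine ⟨Bool.xor (bpar h k) (Bool.xor (h j) v), ?_⟩
  rw [bpar_update hj]
  cases bpar h k <;> cases h j <;> cases v <;> rfl

namespace Dat

variable {d : Dat}

/-- the remaining assumptions -/
structure Full (d : Dat) : Prop extends Good d where
  lin2 : ∀ n, 4 * n + 3 ≤ d.G2 n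
  lin3 : ∀ n, 4 * n + 3 ≤ d.G3 n
  lev : ∀ e k, e + k ≤ d.ll e k
  rnd : ∀ e k, d.r e k ≤ 2 ^ d.ll e k
  que : ∀ e x a q, a.length < d.r e x.length → (d.M e).D (pairBits x a) = false :: q →
    q.length ≤ 2 ^ d.ll e x.length

/-- the questions of level `m` -/
theorem exists_level (h : Full d) (m : ℕ) : ∃ S : Finset (ℕ × List Bool), S.card ≤ 2 ^ (2 * m + 1) ∧
    ∀ e x, d.ll e x.length = m → (e, x) ∈ S := by
  classical
  obtain ⟨U, hU, hU2⟩ := exists_short m
  refine ⟨Finset.range (m + 1) ×ˢ U, ?_, fun e x hx => ?_⟩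
  · rw [Finset.card_product, Finset.card_range]
    calc (m + 1) * U.card ≤ 2 ^ m * 2 ^ (m + 1) := Nat.mul_le_mul (Nat.lt_two_pow_self) hU
      _ = 2 ^ (2 * m + 1) := by rw [← pow_add]; congr 1; omega
  · have h1 := h.lev e x.length
    rw [Finset.mem_product, Finset.mem_range]
    exact ⟨by dsimp only; omega, hU2 x (by omega)⟩

/-- freezing the results of finitely many runs -/
theorem freeze_runs (h : Full d) (m : ℕ) (S : Finset (ℕ × List Bool)) (c : Cfg) :
    ∃ (c' : Cfg) (v : ℕ × List Bool → Option (List Bool)), d.Le m c c' ∧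
      c'.F.card ≤ c.F.card + S.card * 2 ^ (2 * m) ∧ c'.Z.card ≤ c.Z.card + S.card * 2 ^ m ∧
      ∀ e x, (e, x) ∈ S → d.ll e x.length = m → ∀ f Z, d.Ext m c' f Z →
        (d.M e).run (d.O f Z) x (d.r e x.length) [] = v (e, x) := by
  classical
  induction S using Finset.induction_on with
  | empty => exact ⟨c, fun _ => none, Le.refl m c, by simp, by simp, fun e x hx => by simp at hx⟩
  | insert t S ht ih =>
    obtain ⟨c1, v, h1, h2, h3, h4⟩ := ih
    by_cases hl : d.ll t.1 t.2.length = m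
    · obtain ⟨c2, w, h5, h6, h7, h8⟩ := freeze_run h.toGood m (d.M t.1) t.2 (d.r t.1 t.2.length)
        (fun a q ha hq => by
          have := h.que t.1 t.2 a q ha hq
          rwa [hl] at this) (d.r t.1 t.2.length) [] c1 (by simp)
      have hr := h.rnd t.1 t.2.length
      rw [hl] at hr
      refine ⟨c2, Function.update v t w, h1.trans h5, ?_, ?_, fun e x hx hxl f Z hf => ?_⟩
      · rw [Finset.card_insert_of_notMem ht, Nat.succ_mul]
        have : d.r t.1 t.2.length * 2 ^ m ≤ 2 ^ (2 * m) := by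
          calc d.r t.1 t.2.length * 2 ^ m ≤ 2 ^ m * 2 ^ m := Nat.mul_le_mul_right _ hr
            _ = 2 ^ (2 * m) := by rw [← pow_add]; congr 1; omega
        omega
      · rw [Finset.card_insert_of_notMem ht, Nat.succ_mul]
        omega
      · by_cases hxt : (e, x) = t
        · subst hxt
          rw [Function.update_self]
          exact h8 f Z hf
        · rw [Function.update_of_ne hxt]
          exact h4 e x ((Finset.mem_insert.1 hx).resolve_left hxt) hxl f Z (h5.extend hf)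
    · refine ⟨c1, v, h1, ?_, ?_, fun e x hx hxl f Z hf => ?_⟩
      · rw [Finset.card_insert_of_notMem ht, Nat.succ_mul, ← Nat.add_assoc]
        exact h2.trans (Nat.le_add_right _ _)
      · rw [Finset.card_insert_of_notMem ht, Nat.succ_mul, ← Nat.add_assoc]
        exact h3.trans (Nat.le_add_right _ _)
      · refine h4 e x ((Finset.mem_insert.1 hx).resolve_left ?_) hxl f Z hf
        rintro rfl
        exact hl hxl

/-- the parity of the block of an exponential time question -/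
def blk (d : Dat) (A : Oracle) (e : ℕ) (x : List Bool) : Bool :=
  bpar (fun j => A (cE e x (bitsOf (d.G3 (d.ll e x.length)) j))) (2 ^ d.G3 (d.ll e x.length))

/-- what is achieved at the end of stage `m` -/
def Done (d : Dat) (A : Oracle) (m : ℕ) : Prop :=
  ∀ e x, d.ll e x.length = m →
    (blk d A e x = true ↔ (d.M e).run A x (d.r e x.length) [] = some [true])

open Classical in
/-- one stage -/
theorem stage (h : Full d) (m : ℕ) (c : Cfg) (hc : c.F.card ≤ 2 ^ (4 * m)) :
    ∃ c' : Cfg, d.Le m c c' ∧ c'.F.card ≤ c.F.card + 2 ^ (4 * m + 1) ∧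
      c'.Z.card ≤ c.Z.card + 2 ^ (3 * m + 1) ∧
      ∀ f Z, d.Ext (m + 1) c' f Z → Done d (d.O f Z) m := by
  have hL := h.toGood.toLoc
  obtain ⟨S, hS, hS2⟩ := exists_level h m
  obtain ⟨c1, v, h1, h2, h3, h4⟩ := freeze_runs h m S c
  have hF : c1.F.card ≤ c.F.card + 2 ^ (4 * m + 1) := by
    refine h2.trans (Nat.add_le_add_left ?_ _)
    calc S.card * 2 ^ (2 * m) ≤ 2 ^ (2 * m + 1) * 2 ^ (2 * m) := Nat.mul_le_mul_right _ hS
      _ = 2 ^ (4 * m + 1) := by rw [← pow_add]; congr 1; omega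
  have hZ : c1.Z.card ≤ c.Z.card + 2 ^ (3 * m + 1) := by
    refine h3.trans (Nat.add_le_add_left ?_ _)
    calc S.card * 2 ^ m ≤ 2 ^ (2 * m + 1) * 2 ^ m := Nat.mul_le_mul_right _ hS
      _ = 2 ^ (3 * m + 1) := by rw [← pow_add]; congr 1; omega
  have hF2 : c1.F.card < 2 ^ d.G3 m := by
    have h5 : 2 ^ (4 * m) + 2 ^ (4 * m + 1) < 2 ^ (4 * m + 3) := by
      have : 0 < 2 ^ (4 * m) := by positivity
      rw [pow_succ, pow_add 2 (4 * m) 3]
      omega
    have h6 : 2 ^ (4 * m + 3) ≤ 2 ^ d.G3 m := Nat.pow_le_pow_right (by norm_num) (h.lin3 m)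
    omega
  -- the new values on the blocks of level `m`
  have hblock : ∀ (e : ℕ) (x : List Bool), ∃ hv : ℕ → Bool,
      (∀ j < 2 ^ d.G3 m, cE e x (bitsOf (d.G3 m) j) ∈ c1.F →
        hv j = c1.g (cE e x (bitsOf (d.G3 m) j))) ∧
      bpar hv (2 ^ d.G3 m) = decide (v (e, x) = some [true]) := by
    intro e x
    obtain ⟨j, hj, hj2⟩ : ∃ j < 2 ^ d.G3 m, cE e x (bitsOf (d.G3 m) j) ∉ c1.F := by
      by_contra hcon
      push Not at hcon
      have h5 : (Finset.range (2 ^ d.G3 m)).card ≤ c1.F.card := by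
        refine Finset.card_le_card_of_injOn (fun j => cE e x (bitsOf (d.G3 m) j)) ?_ ?_
        · intro j hj
          exact hcon j (Finset.mem_range.1 hj)
        · intro j hj j' hj' hjj
          exact bitsOf_inj (Finset.mem_range.1 (Finset.mem_coe.1 hj))
            (Finset.mem_range.1 (Finset.mem_coe.1 hj')) (cE_inj hjj).2.2
      rw [Finset.card_range] at h5
      omega
    obtain ⟨b, hb⟩ := exists_bpar (fun j => c1.g (cE e x (bitsOf (d.G3 m) j))) hj
      (decide (v (e, x) = some [true]))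
    refine ⟨_, fun i hi hiF => ?_, hb⟩
    rw [Function.update_of_ne]
    rintro rfl
    exact hj2 hiF
  choose hv hv1 hv2 using hblock
  let g' : List Bool → Bool := fun u =>
    if hu : ∃ (e : ℕ) (x : List Bool) (j : ℕ), j < 2 ^ d.G3 m ∧ d.ll e x.length = m ∧
      u = cE e x (bitsOf (d.G3 m) j) then hv hu.choose hu.choose_spec.choose
        hu.choose_spec.choose_spec.choose else c1.g u
  have hg1 : ∀ (e : ℕ) (x : List Bool) (j : ℕ), j < 2 ^ d.G3 m → d.ll e x.length = m →
      g' (cE e x (bitsOf (d.G3 m) j)) = hv e x j := by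
    intro e x j hj hl
    have hu : ∃ (e' : ℕ) (x' : List Bool) (j' : ℕ), j' < 2 ^ d.G3 m ∧ d.ll e' x'.length = m ∧
      cE e x (bitsOf (d.G3 m) j) = cE e' x' (bitsOf (d.G3 m) j') := ⟨e, x, j, hj, hl, rfl⟩
    simp only [g']
    rw [dif_pos hu]
    obtain ⟨k1, k2, k3⟩ := hu.choose_spec.choose_spec.choose_spec
    obtain ⟨k4, k5, k6⟩ := cE_inj k3
    have k7 := bitsOf_inj hj k1 k6
    have key : ∀ (e' : ℕ) (x' : List Bool) (j' : ℕ), e = e' → x = x' → j = j' →
        hv e' x' j' = hv e x j := by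
      rintro _ _ _ rfl rfl rfl; rfl
    exact key _ _ _ k4 k5 k7
  have hg2 : ∀ u, (∀ (e : ℕ) (x : List Bool) (j : ℕ), j < 2 ^ d.G3 m → d.ll e x.length = m →
      u ≠ cE e x (bitsOf (d.G3 m) j)) → g' u = c1.g u := by
    intro u hu
    simp only [g']
    rw [dif_neg]
    rintro ⟨e, x, j, k1, k2, k3⟩
    exact hu e x j k1 k2 k3
  have hg3 : ∀ e x y, cE e x y ∈ c1.F → g' (cE e x y) = c1.g (cE e x y) := by
    intro e x y hy
    by_cases hcase : ∃ j, j < 2 ^ d.G3 m ∧ d.ll e x.length = m ∧ y = bitsOf (d.G3 m) j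
    · obtain ⟨j, k1, k2, rfl⟩ := hcase
      rw [hg1 e x j k1 k2]
      exact hv1 e x j k1 hy
    · apply hg2
      intro e' x' j k1 k2 k3
      obtain ⟨rfl, rfl, k4⟩ := cE_inj k3
      exact hcase ⟨j, k1, k2, k4⟩
  have hLe : d.Le m c1 ⟨g', c1.F, c1.Z⟩ := by
    refine ⟨⟨fun e x y hl => ?_, hg3, fun u hu => hu, fun e x b y k1 k2 => absurd k1 k2⟩,
      Finset.Subset.refl _⟩
    apply hg2
    intro e' x' j k1 k2 k3
    obtain ⟨rfl, rfl, k4⟩ := cE_inj k3
    omega
  refine ⟨⟨g', c1.F, c1.Z⟩, h1.trans hLe, hF, hZ, fun f Z hf e x hl => ?_⟩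
  have hf1 : d.Ext m c1 f Z := hLe.extend (hf.mono hL (Nat.le_succ m))
  rw [h4 e x (hS2 e x hl) hl f Z hf1]
  have hb : blk d (d.O f Z) e x = bpar (hv e x) (2 ^ d.G3 m) := by
    unfold blk
    rw [hl]
    refine bpar_congr fun j hj => ?_
    rw [← hg1 e x j hj hl, Bool.eq_iff_iff, O_cE hL, hf.low e x _ (by omega)]
    rw [hl]
    exact ⟨fun k => k.2, fun k => ⟨length_bitsOf _ _, k⟩⟩
  rw [hb, hv2, decide_eq_true_iff]

open Classical in
/-- the sequence of partial oracles -/
theorem exists_seq (h : Full d) : ∃ c : ℕ → Cfg, ∀ m, (c m).F.card ≤ 2 ^ (4 * m) ∧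
    (c m).Z.card ≤ 2 ^ (3 * m) ∧ d.Le m (c m) (c (m + 1)) ∧
    ∀ f Z, d.Ext (m + 1) (c (m + 1)) f Z → Done d (d.O f Z) m := by
  have hst : ∀ (m : ℕ) (c : Cfg), ∃ c' : Cfg, c.F.card ≤ 2 ^ (4 * m) → d.Le m c c' ∧
      c'.F.card ≤ c.F.card + 2 ^ (4 * m + 1) ∧
      c'.Z.card ≤ c.Z.card + 2 ^ (3 * m + 1) ∧
      ∀ f Z, d.Ext (m + 1) c' f Z → Done d (d.O f Z) m := by
    intro m c
    by_cases hc : c.F.card ≤ 2 ^ (4 * m)
    · obtain ⟨c', hc'⟩ := stage h m c hc
      exact ⟨c', fun _ => hc'⟩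
    · exact ⟨c, fun hc' => absurd hc' hc⟩
  choose nx hnx using hst
  let c : ℕ → Cfg := fun m => Nat.rec ⟨fun _ => false, ∅, ∅⟩ (fun m c => nx m c) m
  have hc0 : c 0 = ⟨fun _ => false, ∅, ∅⟩ := rfl
  have hcs : ∀ m, c (m + 1) = nx m (c m) := fun m => rfl
  have hcard : ∀ m, (c m).F.card ≤ 2 ^ (4 * m) ∧ (c m).Z.card ≤ 2 ^ (3 * m) := by
    intro m
    induction m with
    | zero => rw [hc0]; simp
    | succ m ih =>
      obtain ⟨h1, h2, h3, h4⟩ := hnx m (c m) ih.1
      rw [hcs]
      constructor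
      · have h5 : 2 ^ (4 * m) + 2 ^ (4 * m + 1) ≤ 2 ^ (4 * (m + 1)) := by
          have : 2 ^ (4 * (m + 1)) = 16 * 2 ^ (4 * m) := by
            rw [show 4 * (m + 1) = 4 * m + 4 by ring, pow_add]; ring
          rw [this, pow_succ]
          omega
        have := ih.1
        omega
      · have h5 : 2 ^ (3 * m) + 2 ^ (3 * m + 1) ≤ 2 ^ (3 * (m + 1)) := by
          have : 2 ^ (3 * (m + 1)) = 8 * 2 ^ (3 * m) := by
            rw [show 3 * (m + 1) = 3 * m + 3 by ring, pow_add]; ring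
          rw [this, pow_succ]
          omega
        have := ih.2
        omega
  refine ⟨c, fun m => ⟨(hcard m).1, (hcard m).2, ?_, ?_⟩⟩
  · rw [hcs]; exact (hnx m (c m) (hcard m).1).1
  · rw [hcs]; exact (hnx m (c m) (hcard m).1).2.2.2

theorem seq_le (h : Full d) {c : ℕ → Cfg} (hc : ∀ m, d.Le m (c m) (c (m + 1))) {m k : ℕ}
    (hk : m ≤ k) : d.Le m (c m) (c k) := by
  induction k, hk using Nat.le_induction with
  | base => exact Le.refl m _
  | succ k hk ih => exact ih.trans ((hc k).mono h.toGood.toLoc hk)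

open Classical in
/-- **The oracle.** -/
theorem exists_oracle (h : Full d) : ∃ A : Oracle,
    (∀ e x, A (d.cN e x) = true ↔ d.NP e x A) ∧
    (∀ e x b y, A (cQ e x b y) = true → (b = true ↔ d.QP e x A)) ∧
    (∀ e x b, (b = true ↔ d.QP e x A) →
      ∃ y : List Bool, y.length = d.G2 (d.qq e x.length) ∧ A (cQ e x b y) = true) ∧
    (∀ e x, blk d A e x = true ↔ (d.M e).run A x (d.r e x.length) [] = some [true]) ∧
    (∀ i n t, A (cT i n t) = true ↔ d.GT i n ≤ t) := by
  have hL := h.toGood.toLoc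
  obtain ⟨c, hc⟩ := exists_seq h
  have hle : ∀ {m k : ℕ}, m ≤ k → d.Le m (c m) (c k) := fun hk =>
    seq_le h (fun m => (hc m).2.2.1) hk
  let f : List Bool → Bool := fun u =>
    if hu : ∃ (e : ℕ) (x y : List Bool), u = cE e x y then
      (c (d.ll hu.choose hu.choose_spec.choose.length + 1)).g u else false
  let Z : Set (List Bool) := {u | ∃ k, u ∈ (c k).Z}
  have hf : ∀ e x y, f (cE e x y) = (c (d.ll e x.length + 1)).g (cE e x y) := by
    intro e x y
    have hu : ∃ (e' : ℕ) (x' y' : List Bool), cE e x y = cE e' x' y' := ⟨e, x, y, rfl⟩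
    simp only [f]
    rw [dif_pos hu]
    obtain ⟨k1, k2, k3⟩ := cE_inj hu.choose_spec.choose_spec.choose_spec
    have key : ∀ (e' : ℕ) (x' : List Bool), e = e' → x = x' →
        (c (d.ll e' x'.length + 1)).g (cE e x y) = (c (d.ll e x.length + 1)).g (cE e x y) := by
      rintro _ _ rfl rfl; rfl
    exact key _ _ k1 k2
  have hext : ∀ m, d.Ext m (c m) f Z := by
    intro m
    have hlow : ∀ e x y, d.ll e x.length < m → f (cE e x y) = (c m).g (cE e x y) := by
      intro e x y hl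
      rw [hf, (hle (Nat.succ_le_of_lt hl)).ext.low e x y (Nat.lt_succ_self _)]
    refine ⟨hlow, fun e x y hy => ?_, fun u hu => ⟨m, hu⟩, fun e x b y h1 h2 => ?_⟩
    · rcases lt_or_ge (d.ll e x.length) m with hl | hl
      · exact hlow e x y hl
      · rw [hf, (hle (show m ≤ d.ll e x.length + 1 by omega)).ext.fr e x y hy]
    · obtain ⟨k, hk⟩ := h1
      rcases le_or_gt k m with hkm | hkm
      · exact absurd ((hle hkm).ext.sub _ hk) h2
      · exact (hle hkm.le).ext.high e x b y hk h2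
  refine ⟨d.O f Z, O_cN hL f Z, fun e x b y h1 => ((O_cQ hL f Z e x b y).1 h1).2.1, ?_, ?_,
    O_cT hL f Z⟩
  · intro e x b hb
    obtain ⟨j, hj, hj2⟩ : ∃ j < 2 ^ d.G2 (d.qq e x.length),
        cQ e x b (bitsOf (d.G2 (d.qq e x.length)) j) ∉ Z := by
      by_contra hcon
      push Not at hcon
      have h0 : ∀ y, cQ e x b y ∈ Z → cQ e x b y ∈ (c (d.qq e x.length)).Z := by
        rintro y ⟨k, hk⟩
        by_contra h1
        have h2 := (hext (d.qq e x.length)).high e x b y ⟨k, hk⟩ h1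
        have h3 := h.lin3 (d.qq e x.length)
        omega
      have h5 : (Finset.range (2 ^ d.G2 (d.qq e x.length))).card ≤
          (c (d.qq e x.length)).Z.card := by
        refine Finset.card_le_card_of_injOn
          (fun j => cQ e x b (bitsOf (d.G2 (d.qq e x.length)) j)) ?_ ?_
        · intro j hj
          exact h0 _ (hcon j (Finset.mem_range.1 hj))
        · intro j hj j' hj' hjj
          exact bitsOf_inj (Finset.mem_range.1 (Finset.mem_coe.1 hj))
            (Finset.mem_range.1 (Finset.mem_coe.1 hj')) (cQ_inj hjj).2.2.2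
      rw [Finset.card_range] at h5
      have h6 := (hc (d.qq e x.length)).2.1
      have h7 : 2 ^ (3 * d.qq e x.length) < 2 ^ d.G2 (d.qq e x.length) := by
        refine Nat.pow_lt_pow_right (by norm_num) ?_
        have := h.lin2 (d.qq e x.length)
        omega
      omega
    refine ⟨_, length_bitsOf _ j, ?_⟩
    rw [O_cQ hL]
    exact ⟨length_bitsOf _ _, hb, hj2⟩
  · intro e x
    exact (hc (d.ll e x.length)).2.2.2 f Z (hext _) e x rfl

end Dat

end Pool.Agent.W990.Gap
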