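import Pool.Agent.W990.Gap.Core

/-!
# Partial oracles; freezing the answers of one question and of one run

(helper990)
-/

namespace Pool.Agent.W990.Gap

open Pool.Agent.NPC Pool.Agent.H620R2.Gauge Finset

/-- a partial oracle: `g` on the codes in `F` (and on the codes of lower levels), dead codes `Z` -/
structure Cfg where
  /-- the values -/
  g : List Bool → Bool
  /-- the frozen codes -/
  F : Finset (List Bool)
  /-- the dead codes -/
  Z : Finset (List Bool)

namespace Dat

variable (d : Dat)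

/-- `f, Z` extends the partial oracle `c` at level `m` -/
structure Ext (m : ℕ) (c : Cfg) (f : List Bool → Bool) (Z : Set (List Bool)) : Prop where
  low : ∀ e x y, d.ll e x.length < m → f (cE e x y) = c.g (cE e x y)
  fr : ∀ e x y, cE e x y ∈ c.F → f (cE e x y) = c.g (cE e x y)
  sub : ∀ u ∈ c.Z, u ∈ Z
  high : ∀ e x b y, cQ e x b y ∈ Z → cQ e x b y ∉ c.Z → d.G3 m ≤ d.qq e x.length

/-- the order of partial oracles -/
structure Le (m : ℕ) (c c' : Cfg) : Prop where
  ext : d.Ext m c c'.g c'.Z
  sub : c.F ⊆ c'.F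

variable {d}

theorem Ext.refl (m : ℕ) (c : Cfg) : d.Ext m c c.g c.Z :=
  ⟨fun _ _ _ _ => rfl, fun _ _ _ _ => rfl, fun _ h => h, fun _ _ _ _ h h' => absurd h h'⟩

theorem Le.refl (m : ℕ) (c : Cfg) : d.Le m c c := ⟨Ext.refl m c, Finset.Subset.refl _⟩

theorem Le.extend {m : ℕ} {c c' : Cfg} (h : d.Le m c c') {f : List Bool → Bool}
    {Z : Set (List Bool)} (h' : d.Ext m c' f Z) : d.Ext m c f Z := by
  refine ⟨fun e x y h1 => ?_, fun e x y h1 => ?_, fun u h1 => ?_, fun e x b y h1 h2 => ?_⟩
  · rw [h'.low e x y h1, h.ext.low e x y h1]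
  · rw [h'.fr e x y (h.sub h1), h.ext.fr e x y h1]
  · exact h'.sub u (h.ext.sub u h1)
  · by_cases h3 : cQ e x b y ∈ c'.Z
    · exact h.ext.high e x b y h3 h2
    · exact h'.high e x b y h1 h3

theorem Le.trans {m : ℕ} {c c' c'' : Cfg} (h : d.Le m c c') (h' : d.Le m c' c'') :
    d.Le m c c'' := ⟨h.extend h'.ext, h.sub.trans h'.sub⟩

theorem Ext.mono (h : Loc d) {m m' : ℕ} (hm : m ≤ m') {c : Cfg} {f : List Bool → Bool}
    {Z : Set (List Bool)} (h' : d.Ext m' c f Z) : d.Ext m c f Z :=
  ⟨fun e x y h1 => h'.low e x y (by omega), h'.fr, h'.sub,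
    fun e x b y h1 h2 => (h.mono3 hm).trans (h'.high e x b y h1 h2)⟩

theorem Le.mono (h : Loc d) {m m' : ℕ} (hm : m ≤ m') {c c' : Cfg} (h' : d.Le m' c c') :
    d.Le m c c' := ⟨h'.ext.mono h hm, h'.sub⟩

/-- below `G3 m` the extensions agree -/
theorem agree_low (h : Loc d) {m : ℕ} {c : Cfg} {f f' : List Bool → Bool}
    {Z Z' : Set (List Bool)} (h1 : d.Ext m c f Z) (h2 : d.Ext m c f' Z') (u : List Bool)
    (hu : u.length < d.G3 m) : d.O f Z u = d.O f' Z' u := by
  refine agree h (L := d.G3 m) ?_ ?_ u hu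
  · intro e x y h3 h4
    have h5 := lt_cE e x y
    have h6 : d.ll e x.length < m := by
      by_contra hc
      have := h.mono3 (not_lt.1 hc)
      omega
    rw [h1.low e x y h6, h2.low e x y h6]
  · intro e x b y h3 h4
    have h5 := lt_cQ e x b y
    have h6 := h.le2 (d.qq e x.length)
    by_cases h7 : cQ e x b y ∈ c.Z
    · exact ⟨fun _ => h2.sub _ h7, fun _ => h1.sub _ h7⟩
    · constructor
      · intro h8
        have := h1.high e x b y h8 h7
        omega
      · intro h8
        have := h2.high e x b y h8 h7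
        omega

theorem agree_N (h : Loc d) {m : ℕ} {c : Cfg} {f f' : List Bool → Bool}
    {Z Z' : Set (List Bool)} (h1 : d.Ext m c f Z) (h2 : d.Ext m c f' Z') {e : ℕ} {x : List Bool}
    (hx : d.nn e x.length < d.G3 m) : d.O f Z (d.cN e x) = d.O f' Z' (d.cN e x) := by
  rw [Bool.eq_iff_iff, O_cN h, O_cN h]
  exact h.locN e x _ _ fun z hz => agree_low h h1 h2 z (by omega)

theorem agree_Q (h : Loc d) {m : ℕ} {c : Cfg} {f f' : List Bool → Bool}
    {Z Z' : Set (List Bool)} (h1 : d.Ext m c f Z) (h2 : d.Ext m c f' Z') {e : ℕ} {x : List Bool}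
    (hx : d.qq e x.length < d.G3 m) (b : Bool) (y : List Bool) :
    d.O f Z (cQ e x b y) = d.O f' Z' (cQ e x b y) := by
  rw [Bool.eq_iff_iff, O_cQ h, O_cQ h]
  have h3 : d.QP e x (d.O f Z) ↔ d.QP e x (d.O f' Z') :=
    h.locQ e x _ _ fun z hz => agree_low h h1 h2 z (by omega)
  have h4 : cQ e x b y ∈ Z ↔ cQ e x b y ∈ Z' := by
    by_cases h7 : cQ e x b y ∈ c.Z
    · exact ⟨fun _ => h2.sub _ h7, fun _ => h1.sub _ h7⟩
    · constructor
      · intro h8
        have := h1.high e x b y h8 h7
        omega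
      · intro h8
        have := h2.high e x b y h8 h7
        omega
  rw [h3, h4]

/-- the assumptions -/
structure Good (d : Dat) : Prop extends Loc d where
  big1 : ∀ m, 2 ^ m < d.G1 (d.G1 (d.G3 m))
  big2 : ∀ m, 2 ^ m < d.G1 (d.G2 (d.G3 m))
  cert : ∀ e x A, d.NP e x A → ∃ W : Finset (List Bool), W.card ≤ d.nn e x.length ∧
    (∀ w ∈ W, w.length ≤ d.nn e x.length) ∧ ∀ A' : Oracle, (∀ w ∈ W, A' w = A w) → d.NP e x A'

/-- freezing the answer to one question -/
theorem one (h : Good d) (m : ℕ) (c : Cfg) (u : List Bool) (hu : u.length ≤ 2 ^ m) :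
    ∃ (c' : Cfg) (v : Bool), d.Le m c c' ∧ c'.F.card ≤ c.F.card + 2 ^ m ∧
      c'.Z.card ≤ c.Z.card + 1 ∧ ∀ f Z, d.Ext m c' f Z → d.O f Z u = v := by
  classical
  have hL := h.toLoc
  by_cases hN : ∃ e x, u = d.cN e x
  · obtain ⟨e, x, rfl⟩ := hN
    by_cases hn : d.nn e x.length < d.G3 m
    · exact ⟨c, _, Le.refl m c, by omega, by omega, fun f Z hf =>
        agree_N hL hf (Ext.refl m c) hn⟩
    · by_cases hex : ∃ f Z, d.Ext m c f Z ∧ d.NP e x (d.O f Z)
      · obtain ⟨f, Z, hf, hP⟩ := hex
        obtain ⟨W, hW1, hW2, hW3⟩ := h.cert e x _ hP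
        have hlt := d.lt_cN e x
        have hle := hL.le1 (d.nn e x.length)
        have hLe : d.Le m c ⟨f, c.F ∪ W, c.Z⟩ := by
          refine ⟨⟨hf.low, hf.fr, fun u hu => hu, fun e x b y h1 h2 => absurd h1 h2⟩, ?_⟩
          exact Finset.subset_union_left
        refine ⟨⟨f, c.F ∪ W, c.Z⟩, true, hLe, ?_, by simp, fun f' Z' hf' => ?_⟩
        · refine (Finset.card_union_le _ _).trans ?_
          have : W.card ≤ 2 ^ m := by omega
          omega
        · rw [O_cN hL]
          apply hW3
          intro w hw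
          have hw2 := hW2 w hw
          have hmon := hL.mono1
          have hf2 := hLe.extend hf'
          by_cases w1 : ∃ e' x', w = d.cN e' x'
          · obtain ⟨e', x', rfl⟩ := w1
            refine agree_N hL hf2 hf ?_
            by_contra hc
            have h1 := d.lt_cN e' x'
            have h2 : d.G1 (d.nn e' x'.length) ≤ d.nn e x.length := by omega
            have h3 := hmon h2
            have h4 := hmon (hmon (not_lt.1 hc))
            have h5 := h.big1 m
            omega
          by_cases w2 : ∃ e' x' b' y', w = cQ e' x' b' y'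
          · obtain ⟨e', x', b', y', rfl⟩ := w2
            by_cases hy : y'.length = d.G2 (d.qq e' x'.length)
            · refine agree_Q hL hf2 hf ?_ b' y'
              by_contra hc
              have h1 := lt_cQ e' x' b' y'
              have h2 : d.G2 (d.qq e' x'.length) ≤ d.nn e x.length := by omega
              have h3 := hmon h2
              have h4 := hmon (hL.mono2 (not_lt.1 hc))
              have h5 := h.big2 m
              omega
            · rw [Bool.eq_iff_iff, O_cQ hL, O_cQ hL]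
              exact ⟨fun h1 => absurd h1.1 hy, fun h1 => absurd h1.1 hy⟩
          by_cases w3 : ∃ e' x' y', w = cE e' x' y'
          · obtain ⟨e', x', y', rfl⟩ := w3
            rw [Bool.eq_iff_iff, O_cE hL, O_cE hL,
              hf'.fr e' x' y' (Finset.mem_union_right _ hw)]
          by_cases w4 : ∃ i n t, w = cT i n t
          · obtain ⟨i, n, t, rfl⟩ := w4
            rw [Bool.eq_iff_iff, O_cT hL, O_cT hL]
          push Not at w1 w2 w3 w4
          rw [O_not hL _ _ _ w1 w2 w3 w4, O_not hL _ _ _ w1 w2 w3 w4]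
      · refine ⟨c, false, Le.refl m c, by omega, by omega, fun f Z hf => ?_⟩
        rw [← Bool.not_eq_true, O_cN hL]
        exact fun h1 => hex ⟨f, Z, hf, h1⟩
  by_cases hQ : ∃ e x b y, u = cQ e x b y
  · obtain ⟨e, x, b, y, rfl⟩ := hQ
    by_cases hn : d.qq e x.length < d.G3 m
    · exact ⟨c, _, Le.refl m c, by omega, by omega, fun f Z hf =>
        agree_Q hL hf (Ext.refl m c) hn b y⟩
    · refine ⟨⟨c.g, c.F, insert (cQ e x b y) c.Z⟩, false, ?_, by simp, ?_, fun f Z hf => ?_⟩
      · refine ⟨⟨fun _ _ _ _ => rfl, fun _ _ _ _ => rfl, ?_, ?_⟩, Finset.Subset.refl _⟩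
        · intro u hu
          exact Finset.mem_coe.2 (Finset.mem_insert_of_mem hu)
        · intro e' x' b' y' h1 h2
          have h3 := Finset.mem_insert.1 (Finset.mem_coe.1 h1)
          rcases h3 with h3 | h3
          · obtain ⟨rfl, rfl, _, _⟩ := cQ_inj h3
            omega
          · exact absurd h3 h2
      · exact Finset.card_insert_le _ _
      · rw [← Bool.not_eq_true, O_cQ hL]
        rintro ⟨_, _, h3⟩
        exact h3 (hf.sub _ (Finset.mem_insert_self _ _))
  by_cases hE : ∃ e x y, u = cE e x y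
  · obtain ⟨e, x, y, rfl⟩ := hE
    have hpow := Nat.one_le_two_pow (n := m)
    refine ⟨⟨c.g, insert (cE e x y) c.F, c.Z⟩,
      decide (y.length = d.G3 (d.ll e x.length) ∧ c.g (cE e x y) = true), ?_, ?_, by simp,
      fun f Z hf => ?_⟩
    · exact ⟨⟨fun _ _ _ _ => rfl, fun _ _ _ _ => rfl, fun _ h => h,
        fun _ _ _ _ h h' => absurd h h'⟩, Finset.subset_insert _ _⟩
    · refine (Finset.card_insert_le _ _).trans ?_
      omega
    · rw [Bool.eq_iff_iff, O_cE hL, decide_eq_true_iff,
        hf.fr e x y (Finset.mem_insert_self _ _)]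
  by_cases hT : ∃ i n t, u = cT i n t
  · obtain ⟨i, n, t, rfl⟩ := hT
    refine ⟨c, decide (d.GT i n ≤ t), Le.refl m c, by omega, by omega, fun f Z hf => ?_⟩
    rw [Bool.eq_iff_iff, O_cT hL, decide_eq_true_iff]
  · push Not at hN hQ hE hT
    exact ⟨c, false, Le.refl m c, by omega, by omega, fun f Z hf => O_not hL _ _ _ hN hQ hE hT⟩

/-- freezing the result of a run -/
theorem freeze_run (h : Good d) (m : ℕ) (M : Alg) (x : List Bool) (R : ℕ)
    (hR : ∀ a q, a.length < R → M.D (pairBits x a) = false :: q → q.length ≤ 2 ^ m) :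
    ∀ (n : ℕ) (a : List Bool) (c : Cfg), a.length + n ≤ R →
    ∃ (c' : Cfg) (v : Option (List Bool)), d.Le m c c' ∧ c'.F.card ≤ c.F.card + n * 2 ^ m ∧
      c'.Z.card ≤ c.Z.card + n ∧ ∀ f Z, d.Ext m c' f Z → M.run (d.O f Z) x n a = v := by
  intro n
  induction n with
  | zero => exact fun a c _ => ⟨c, none, Le.refl m c, by omega, by omega, fun f Z hf => rfl⟩
  | succ n ih =>
    intro a c ha
    rcases hq : M.D (pairBits x a) with _ | ⟨b, q⟩
    · refine ⟨c, some [], Le.refl m c, by omega, by omega, fun f Z hf => ?_⟩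
      simp only [Alg.run, hq]
    · cases b with
      | true =>
        refine ⟨c, some q, Le.refl m c, by omega, by omega, fun f Z hf => ?_⟩
        simp only [Alg.run, hq]
      | false =>
        obtain ⟨c1, b1, h1, h2, h3, h4⟩ := one h m c q (hR a q (by omega) hq)
        obtain ⟨c2, v, h5, h6, h7, h8⟩ := ih (a ++ [b1]) c1 (by
          rw [List.length_append, List.length_singleton]; omega)
        refine ⟨c2, v, h1.trans h5, ?_, by omega, fun f Z hf => ?_⟩
        · rw [Nat.succ_mul]
          omega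
        · simp only [Alg.run, hq]
          rw [h4 f Z (h5.extend hf)]
          exact h8 f Z hf

end Dat

end Pool.Agent.W990.Gap
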